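import Mathlib

set_option autoImplicit false

namespace Pool.Agent.Results.MP_a77fb1_co.BoundedLag

open Finset

/-- `C` is an `r`-identifying code of length `n`: all sets `B_r(v) ∩ C` are nonempty and
pairwise distinct -/
def IsId (r n : ℕ) (C : Finset (Fin n → Bool)) : Prop :=
  (∀ v : Fin n → Bool, (C.filter (fun c => hammingDist c v ≤ r)).Nonempty) ∧
  ∀ u v : Fin n → Bool, u ≠ v →
    C.filter (fun c => hammingDist c u ≤ r) ≠ C.filter (fun c => hammingDist c v ≤ r)

/-- the minimum cardinality of an `r`-identifying code of length `n` -/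
noncomputable def Id (r n : ℕ) : ℕ :=
  sInf {m | ∃ C : Finset (Fin n → Bool), IsId r n C ∧ C.card = m}

/-- number of subsets with at most `j` elements of a set with `r + 1` elements -/
def W (r j : ℕ) : ℕ := ∑ i ∈ range (j + 1), (r + 1).choose i

/-- the constant in the inequality -/
def S (r k : ℕ) : ℕ := ∑ j ∈ range (r + 1), k.choose j * W r j

lemma push {n r : ℕ} (T : Finset (Fin n)) (hT : T.card = r + 1) (c v : Fin n → Bool) :
    ∃ c' : Fin n → Bool, r < hammingDist c' v ∧
      hammingDist c' c ≤ r + 1 - hammingDist c v ∧ ∀ i, i ∉ T → c' i = c i := by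
  classical
  by_cases h : r + 1 ≤ hammingDist c v
  · exact ⟨c, by omega, by simp, fun _ _ => rfl⟩
  · have hA : r + 1 - hammingDist c v ≤ (T.filter (fun i => c i = v i)).card := by
      have h1 : (T.filter (fun i => c i = v i)).card + (T.filter (fun i => ¬ c i = v i)).card
          = T.card := Finset.card_filter_add_card_filter_not _
      have h2 : (T.filter (fun i => ¬ c i = v i)).card ≤ hammingDist c v := by
        unfold hammingDist
        apply Finset.card_le_card
        intro i hi
        simp only [Finset.mem_filter, Finset.mem_univ, true_and] at hi ⊢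
        exact hi.2
      omega
    obtain ⟨A, hAsub, hAcard⟩ := Finset.exists_subset_card_eq hA
    have hAT : ∀ i ∈ A, i ∈ T ∧ c i = v i := by
      intro i hi
      have := hAsub hi
      simpa using this
    refine ⟨fun i => if i ∈ A then !(c i) else c i, ?_, ?_, ?_⟩
    · have : (univ.filter (fun i => (if i ∈ A then !(c i) else c i) ≠ v i))
          = (univ.filter (fun i => c i ≠ v i)) ∪ A := by
        ext i
        by_cases hi : i ∈ A
        · simp [hi, (hAT i hi).2]
        · simp [hi]
      have hd : Disjoint (univ.filter (fun i => c i ≠ v i)) A := by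
        rw [Finset.disjoint_left]
        intro i hi hiA
        simp only [Finset.mem_filter, Finset.mem_univ, true_and] at hi
        exact hi (hAT i hiA).2
      have h3 : hammingDist (fun i => if i ∈ A then !(c i) else c i) v
          = hammingDist c v + A.card := by
        unfold hammingDist
        rw [this, Finset.card_union_of_disjoint hd]
      rw [h3]; omega
    · have : (univ.filter (fun i => (if i ∈ A then !(c i) else c i) ≠ c i)) = A := by
        ext i
        by_cases hi : i ∈ A
        · simp [hi]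
        · simp [hi]
      have h3 : hammingDist (fun i => if i ∈ A then !(c i) else c i) c = A.card := by
        unfold hammingDist
        rw [this]
      rw [h3]; omega
    · intro i hi
      have : i ∉ A := fun h => hi (hAT i h).1
      simp [this]

lemma count_eq {n : ℕ} (T : Finset (Fin n)) (c : Fin n → Bool) (j : ℕ) :
    (univ.filter (fun c' : Fin n → Bool => (∀ i, i ∉ T → c' i = c i) ∧ hammingDist c' c = j)).card
      ≤ T.card.choose j := by
  classical
  rw [← Finset.card_powersetCard]
  apply Finset.card_le_card_of_injOn (fun c' => univ.filter (fun i => c' i ≠ c i))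
  · intro c' hc'
    rw [Finset.mem_coe, Finset.mem_filter] at hc'
    rw [Finset.mem_coe, Finset.mem_powersetCard]
    refine ⟨?_, hc'.2.2⟩
    intro i hi
    simp only [Finset.mem_univ, true_and, Finset.mem_filter] at hi
    by_contra hT
    exact hi (hc'.2.1 i hT)
  · intro c₁ _ c₂ _ h
    funext i
    have h1 : (i ∈ univ.filter (fun i => c₁ i ≠ c i)) ↔ (i ∈ univ.filter (fun i => c₂ i ≠ c i)) := by
      have h' : (univ.filter (fun i => c₁ i ≠ c i)) = (univ.filter (fun i => c₂ i ≠ c i)) := h
      rw [h']
    simp only [Finset.mem_filter, Finset.mem_univ, true_and] at h1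
    cases hc1 : c₁ i <;> cases hc2 : c₂ i <;> cases hc : c i <;> simp_all

lemma count_le {n r : ℕ} (T : Finset (Fin n)) (hT : T.card = r + 1) (c : Fin n → Bool) (j : ℕ) :
    (univ.filter (fun c' : Fin n → Bool => (∀ i, i ∉ T → c' i = c i) ∧ hammingDist c' c ≤ j)).card
      ≤ W r j := by
  classical
  have h : (univ.filter (fun c' : Fin n → Bool => (∀ i, i ∉ T → c' i = c i) ∧ hammingDist c' c ≤ j))
      ⊆ (range (j + 1)).biUnion (fun i => univ.filter
        (fun c' : Fin n → Bool => (∀ i, i ∉ T → c' i = c i) ∧ hammingDist c' c = i)) := by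
    intro c' hc'
    simp only [Finset.mem_filter, Finset.mem_univ, true_and] at hc'
    simp only [Finset.mem_biUnion, Finset.mem_range, Finset.mem_filter, Finset.mem_univ, true_and]
    exact ⟨_, by omega, hc'.1, rfl⟩
  calc _ ≤ _ := Finset.card_le_card h
    _ ≤ ∑ i ∈ range (j + 1), _ := Finset.card_biUnion_le
    _ ≤ ∑ i ∈ range (j + 1), (r + 1).choose i := by
        apply Finset.sum_le_sum
        intro i _
        rw [← hT]
        exact count_eq T c i
    _ = W r j := rfl

/-- left part -/
def lp {n k : ℕ} (x : Fin (n + k) → Bool) : Fin n → Bool := fun i => x (Fin.castAdd k i)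
/-- right part -/
def rp {n k : ℕ} (x : Fin (n + k) → Bool) : Fin k → Bool := fun i => x (Fin.natAdd n i)

lemma dist_split {n k : ℕ} (x : Fin (n + k) → Bool) (u : Fin n → Bool) (a : Fin k → Bool) :
    hammingDist x (Fin.append u a) = hammingDist (lp x) u + hammingDist (rp x) a := by
  classical
  unfold hammingDist
  simp only [Finset.card_filter]
  rw [Fin.sum_univ_add]
  simp only [Fin.append_left, Fin.append_right]
  rfl

/-- the new code -/
def newCode {n k : ℕ} (r : ℕ) (T : Finset (Fin n)) (a : Fin k → Bool)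
    (C : Finset (Fin (n + k) → Bool)) : Finset (Fin n → Bool) :=
  (C.filter (fun x => hammingDist (rp x) a ≤ r)).biUnion (fun x => univ.filter
    (fun c' : Fin n → Bool => (∀ i, i ∉ T → c' i = lp x i) ∧
      hammingDist c' (lp x) ≤ hammingDist (rp x) a))

lemma newCode_sep {n k r : ℕ} (T : Finset (Fin n)) (hT : T.card = r + 1) (a : Fin k → Bool)
    (C : Finset (Fin (n + k) → Bool)) (u v : Fin n → Bool) (x : Fin (n + k) → Bool) (hx : x ∈ C)
    (hu : hammingDist x (Fin.append u a) ≤ r) (hv : ¬ hammingDist x (Fin.append v a) ≤ r) :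
    ∃ c' ∈ newCode r T a C, hammingDist c' u ≤ r ∧ ¬ hammingDist c' v ≤ r := by
  rw [dist_split] at hu hv
  obtain ⟨c', h1, h2, h3⟩ := push T hT (lp x) v
  refine ⟨c', ?_, ?_, by omega⟩
  · simp only [newCode, Finset.mem_biUnion, Finset.mem_filter, Finset.mem_univ, true_and]
    exact ⟨x, ⟨hx, by omega⟩, h3, by omega⟩
  · have := hammingDist_triangle c' (lp x) u
    omega

lemma newCode_isId {n k r : ℕ} (T : Finset (Fin n)) (hT : T.card = r + 1) (a : Fin k → Bool)
    (C : Finset (Fin (n + k) → Bool)) (hC : IsId r (n + k) C) :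
    IsId r n (newCode r T a C) := by
  refine ⟨?_, ?_⟩
  · intro v
    obtain ⟨x, hx⟩ := hC.1 (Fin.append v a)
    rw [Finset.mem_filter, dist_split] at hx
    refine ⟨lp x, ?_⟩
    simp only [newCode, Finset.mem_biUnion, Finset.mem_filter, Finset.mem_univ, true_and]
    exact ⟨⟨x, ⟨hx.1, by omega⟩, fun _ _ => rfl, by simp⟩, by omega⟩
  · intro u v huv heq
    have hne : (Fin.append u a : Fin (n + k) → Bool) ≠ Fin.append v a := by
      intro h
      apply huv
      funext i
      have := congrFun h (Fin.castAdd k i)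
      simpa using this
    apply hC.2 _ _ hne
    ext x
    simp only [Finset.mem_filter, and_congr_right_iff]
    intro hx
    constructor
    · intro hu
      by_contra hv
      obtain ⟨c', hc', h1, h2⟩ := newCode_sep T hT a C u v x hx hu hv
      have : c' ∈ (newCode r T a C).filter (fun c => hammingDist c v ≤ r) := by
        rw [← heq]; exact Finset.mem_filter.2 ⟨hc', h1⟩
      exact h2 (Finset.mem_filter.1 this).2
    · intro hv
      by_contra hu
      obtain ⟨c', hc', h1, h2⟩ := newCode_sep T hT a C v u x hx hv hu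
      have : c' ∈ (newCode r T a C).filter (fun c => hammingDist c u ≤ r) := by
        rw [heq]; exact Finset.mem_filter.2 ⟨hc', h1⟩
      exact h2 (Finset.mem_filter.1 this).2

lemma newCode_card {n k r : ℕ} (T : Finset (Fin n)) (hT : T.card = r + 1) (a : Fin k → Bool)
    (C : Finset (Fin (n + k) → Bool)) :
    (newCode r T a C).card ≤
      ∑ x ∈ C.filter (fun x => hammingDist (rp x) a ≤ r), W r (hammingDist (rp x) a) := by
  unfold newCode
  refine Finset.card_biUnion_le.trans (Finset.sum_le_sum ?_)
  intro x _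
  exact count_le T hT _ _

lemma sum_fib (r k : ℕ) (y : Fin k → Bool) :
    ∑ a ∈ univ.filter (fun a : Fin k → Bool => hammingDist y a ≤ r), W r (hammingDist y a)
      ≤ S r k := by
  classical
  rw [← Finset.sum_fiberwise_of_maps_to (t := range (r + 1)) (g := fun a => hammingDist y a)]
  · apply Finset.sum_le_sum
    intro j hj
    calc _ = ∑ a ∈ (univ.filter (fun a : Fin k → Bool => hammingDist y a ≤ r)).filter
            (fun a => hammingDist y a = j), W r j := by
          apply Finset.sum_congr rfl
          intro a ha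
          rw [(Finset.mem_filter.1 ha).2]
      _ = ((univ.filter (fun a : Fin k → Bool => hammingDist y a ≤ r)).filter
            (fun a => hammingDist y a = j)).card * W r j := by simp
      _ ≤ k.choose j * W r j := by
          apply Nat.mul_le_mul_right
          have h := count_eq (univ : Finset (Fin k)) y j
          rw [Finset.card_univ, Fintype.card_fin] at h
          refine le_trans (Finset.card_le_card ?_) h
          intro a ha
          simp only [Finset.mem_filter, Finset.mem_univ, true_and] at ha ⊢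
          exact ⟨fun i hi => absurd trivial hi, by rw [hammingDist_comm]; exact ha.2⟩
  · intro a ha
    have := (Finset.mem_filter.1 ha).2
    exact Finset.mem_range.2 (by omega)

lemma exists_T {n r : ℕ} (h : r + 1 ≤ n) : ∃ T : Finset (Fin n), T.card = r + 1 := by
  obtain ⟨T, _, hT⟩ := Finset.exists_subset_card_eq (s := (univ : Finset (Fin n))) (n := r + 1)
    (by simpa using h)
  exact ⟨T, hT⟩

lemma univ_isId {n r : ℕ} (h : r + 1 ≤ n) : IsId r n univ := by
  obtain ⟨T, hT⟩ := exists_T h
  refine ⟨fun v => ⟨v, by simp⟩, ?_⟩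
  intro u v huv heq
  obtain ⟨c', h1, h2, _⟩ := push T hT u v
  have hpos : 0 < hammingDist u v := hammingDist_pos.2 huv
  have : c' ∈ (univ : Finset (Fin n → Bool)).filter (fun c => hammingDist c v ≤ r) := by
    rw [← heq]; simp; omega
  have := (Finset.mem_filter.1 this).2
  omega

lemma Id_attained {n r : ℕ} (h : r + 1 ≤ n) :
    ∃ C : Finset (Fin n → Bool), IsId r n C ∧ C.card = Id r n := by
  have hne : {m | ∃ C : Finset (Fin n → Bool), IsId r n C ∧ C.card = m}.Nonempty :=
    ⟨_, univ, univ_isId h, rfl⟩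
  exact Nat.sInf_mem hne

lemma Id_le {n r : ℕ} (C : Finset (Fin n → Bool)) (hC : IsId r n C) : Id r n ≤ C.card :=
  Nat.sInf_le ⟨C, hC, rfl⟩

lemma main_ineq {n r : ℕ} (k : ℕ) (h : r + 1 ≤ n) : 2 ^ k * Id r n ≤ S r k * Id r (n + k) := by
  classical
  obtain ⟨C, hC, hcard⟩ := Id_attained (r := r) (n := n + k) (by omega)
  obtain ⟨T, hT⟩ := exists_T h
  have h1 : ∀ a : Fin k → Bool, Id r n ≤
      ∑ x ∈ C.filter (fun x => hammingDist (rp x) a ≤ r), W r (hammingDist (rp x) a) := fun a =>
    (Id_le _ (newCode_isId T hT a C hC)).trans (newCode_card T hT a C)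
  calc 2 ^ k * Id r n = ∑ _a : Fin k → Bool, Id r n := by
        simp [Finset.sum_const, Finset.card_univ]
    _ ≤ ∑ a : Fin k → Bool, ∑ x ∈ C.filter (fun x => hammingDist (rp x) a ≤ r),
          W r (hammingDist (rp x) a) := Finset.sum_le_sum (fun a _ => h1 a)
    _ = ∑ x ∈ C, ∑ a ∈ univ.filter (fun a : Fin k → Bool => hammingDist (rp x) a ≤ r),
          W r (hammingDist (rp x) a) := by
        simp only [Finset.sum_filter]
        exact Finset.sum_comm
    _ ≤ ∑ _x ∈ C, S r k := Finset.sum_le_sum (fun x _ => sum_fib r k (rp x))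
    _ = S r k * Id r (n + k) := by
        rw [Finset.sum_const, hcard, smul_eq_mul, mul_comm]

lemma S_pos (r k : ℕ) : 0 < S r k := by
  unfold S
  have : 0 < k.choose 0 * W r 0 := by simp [W]
  exact lt_of_lt_of_le this
    (Finset.single_le_sum (f := fun j => k.choose j * W r j) (fun _ _ => Nat.zero_le _) (by simp))

lemma of_S_le {n r k B : ℕ} (h : r + 1 ≤ n) (hS : B * S r k ≤ 2 ^ k) :
    B * Id r n ≤ Id r (n + k) := by
  have h1 := main_ineq k h
  have h2 : S r k * (B * Id r n) ≤ S r k * Id r (n + k) := by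
    calc S r k * (B * Id r n) = (B * S r k) * Id r n := by ring
      _ ≤ 2 ^ k * Id r n := Nat.mul_le_mul_right _ hS
      _ ≤ _ := h1
  exact Nat.le_of_mul_le_mul_left h2 (S_pos r k)

lemma W_le (r j : ℕ) (hj : j ≤ r) : W r j ≤ 2 ^ (r + 1) := by
  unfold W
  rw [← Nat.sum_range_choose]
  apply Finset.sum_le_sum_of_subset
  intro i hi
  simp only [Finset.mem_range] at hi ⊢
  omega

lemma S_le (r k : ℕ) (hk : 1 ≤ k) : S r k ≤ (r + 1) * 2 ^ (r + 1) * k ^ r := by
  unfold S
  calc ∑ j ∈ range (r + 1), k.choose j * W r j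
      ≤ ∑ _j ∈ range (r + 1), k ^ r * 2 ^ (r + 1) := by
        apply Finset.sum_le_sum
        intro j hj
        have hj' : j ≤ r := by simpa [Nat.lt_succ_iff] using Finset.mem_range.1 hj
        apply Nat.mul_le_mul
        · exact (Nat.choose_le_pow k j).trans (Nat.pow_le_pow_right hk hj')
        · exact W_le r j hj'
    _ = (r + 1) * 2 ^ (r + 1) * k ^ r := by
        rw [Finset.sum_const, Finset.card_range, smul_eq_mul]; ring

lemma exists_K (r B : ℕ) : ∃ K : ℕ, ∀ k, K ≤ k → B * S r k ≤ 2 ^ k := by
  have ht := tendsto_pow_const_div_const_pow_of_one_lt r (r := (2 : ℝ)) (by norm_num)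
  set M : ℝ := (B : ℝ) * ((r + 1) * 2 ^ (r + 1)) + 1 with hM
  have hMpos : 0 < M := by positivity
  have hev : ∀ᶠ k : ℕ in Filter.atTop, (k : ℝ) ^ r / 2 ^ k < 1 / M :=
    (tendsto_order.1 ht).2 _ (by positivity)
  obtain ⟨K, hK⟩ := Filter.eventually_atTop.1 hev
  refine ⟨K + 1, fun k hk => ?_⟩
  have h1 := hK k (by omega)
  rw [div_lt_div_iff₀ (by positivity) hMpos, one_mul] at h1
  have h2 : (B * S r k : ℕ) ≤ B * ((r + 1) * 2 ^ (r + 1) * k ^ r) :=
    Nat.mul_le_mul_left _ (S_le r k (by omega))
  have h3 : ((B * ((r + 1) * 2 ^ (r + 1) * k ^ r) : ℕ) : ℝ) ≤ (2 ^ k : ℕ) := by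
    push_cast
    have : (B : ℝ) * ((r + 1) * 2 ^ (r + 1) * (k : ℝ) ^ r) ≤ (k : ℝ) ^ r * M := by
      rw [hM]
      have : (0 : ℝ) ≤ (k : ℝ) ^ r := by positivity
      nlinarith
    linarith
  have h4 : B * ((r + 1) * 2 ^ (r + 1) * k ^ r) ≤ 2 ^ k := by exact_mod_cast h3
  exact h2.trans h4

lemma S_two (k : ℕ) (hk : 8 ≤ k) : S 2 k ≤ 2 ^ k := by
  have hS : ∀ k, S 2 k = 1 + k * 4 + k.choose 2 * 7 := by
    intro k
    simp [S, W, Finset.sum_range_succ, Nat.choose]
  have hlin : ∀ k, 8 ≤ k → 4 + 7 * k ≤ 2 ^ k := by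
    intro k hk
    induction k, hk using Nat.le_induction with
    | base => norm_num
    | succ k hk ih => rw [pow_succ]; omega
  rw [hS]
  induction k, hk using Nat.le_induction with
  | base => decide
  | succ k hk ih =>
    have h1 := hlin k hk
    have h2 : (k + 1).choose 2 = k + k.choose 2 := by
      rw [Nat.choose_succ_succ]; simp
    rw [h2, pow_succ]
    omega

/-- Monotonicity with bounded lag of the minimum size of an `r`-identifying code in the cube. -/
theorem result :
    -- `Id r n` is really a minimum over a nonempty set for `n ≥ r + 1`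
    (∀ r n, r + 1 ≤ n → ∃ C : Finset (Fin n → Bool), IsId r n C ∧ C.card = Id r n) ∧
    -- the quantitative inequality
    (∀ r n k, r + 1 ≤ n → 2 ^ k * Id r n ≤
      (∑ j ∈ range (r + 1), k.choose j * ∑ i ∈ range (j + 1), (r + 1).choose i) * Id r (n + k)) ∧
    -- monotonicity with bounded lag, with any constant factor
    (∀ r B, ∃ K, ∀ n m, r + 1 ≤ n → n + K ≤ m → B * Id r n ≤ Id r m) ∧
    -- explicit lag for `r = 2`
    (∀ n m, 3 ≤ n → n + 8 ≤ m → Id 2 n ≤ Id 2 m) := by
  refine ⟨fun r n h => Id_attained h, fun r n k h => main_ineq k h, ?_, ?_⟩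
  · intro r B
    obtain ⟨K, hK⟩ := exists_K r B
    refine ⟨K, fun n m hn hm => ?_⟩
    obtain ⟨k, rfl⟩ : ∃ k, m = n + k := ⟨m - n, by omega⟩
    exact of_S_le hn (hK k (by omega))
  · intro n m hn hm
    obtain ⟨k, rfl⟩ : ∃ k, m = n + k := ⟨m - n, by omega⟩
    have := of_S_le (r := 2) (k := k) (B := 1) (n := n) (by omega)
      (by rw [one_mul]; exact S_two k (by omega))
    simpa using this

end Pool.Agent.Results.MP_a77fb1_co.BoundedLag
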