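import Mathlib

set_option autoImplicit false

namespace Pool.Agent.Results.MP_a77fb1_co.NearDoubling

open Finset

/-- `C` is an `r`-identifying code of length `n`: all sets `B_r(v) ∩ C` are nonempty and
pairwise distinct -/
def IsId (r n : ℕ) (C : Finset (Fin n → Bool)) : Prop :=
  (∀ v : Fin n → Bool, (C.filter (fun c => hammingDist c v ≤ r)).Nonempty) ∧
  ∀ u v : Fin n → Bool, u ≠ v →
    C.filter (fun c => hammingDist c u ≤ r) ≠ C.filter (fun c => hammingDist c v ≤ r)

/-- the minimum cardinality of an `r`-identifying code of length `n` -/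
noncomputable def Id (r n : ℕ) : ℕ :=
  sInf {m | ∃ C : Finset (Fin n → Bool), IsId r n C ∧ C.card = m}

/-- number of subsets with at most `j` elements of a set with `r + 1` elements -/
def W (r j : ℕ) : ℕ := ∑ i ∈ range (j + 1), (r + 1).choose i

/-- the constant in the inequality -/
def S (r k : ℕ) : ℕ := ∑ j ∈ range (r + 1), k.choose j * W r j

lemma push {n r : ℕ} (T : Finset (Fin n)) (hT : T.card = r + 1) (c v : Fin n → Bool) :
    ∃ c' : Fin n → Bool, r < hammingDist c' v ∧
      hammingDist c' c ≤ r + 1 - hammingDist c v ∧ ∀ i, i ∉ T → c' i = c i := by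
  classical
  by_cases h : r + 1 ≤ hammingDist c v
  · exact ⟨c, by omega, by simp, fun _ _ => rfl⟩
  · have hA : r + 1 - hammingDist c v ≤ (T.filter (fun i => c i = v i)).card := by
      have h1 : (T.filter (fun i => c i = v i)).card + (T.filter (fun i => ¬ c i = v i)).card
          = T.card := Finset.card_filter_add_card_filter_not _
      have h2 : (T.filter (fun i => ¬ c i = v i)).card ≤ hammingDist c v := by
        unfold hammingDist
        apply Finset.card_le_card
        intro i hi
        simp only [Finset.mem_filter, Finset.mem_univ, true_and] at hi ⊢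
        exact hi.2
      omega
    obtain ⟨A, hAsub, hAcard⟩ := Finset.exists_subset_card_eq hA
    have hAT : ∀ i ∈ A, i ∈ T ∧ c i = v i := by
      intro i hi
      have := hAsub hi
      simpa using this
    refine ⟨fun i => if i ∈ A then !(c i) else c i, ?_, ?_, ?_⟩
    · have : (univ.filter (fun i => (if i ∈ A then !(c i) else c i) ≠ v i))
          = (univ.filter (fun i => c i ≠ v i)) ∪ A := by
        ext i
        by_cases hi : i ∈ A
        · simp [hi, (hAT i hi).2]
        · simp [hi]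
      have hd : Disjoint (univ.filter (fun i => c i ≠ v i)) A := by
        rw [Finset.disjoint_left]
        intro i hi hiA
        simp only [Finset.mem_filter, Finset.mem_univ, true_and] at hi
        exact hi (hAT i hiA).2
      have h3 : hammingDist (fun i => if i ∈ A then !(c i) else c i) v
          = hammingDist c v + A.card := by
        unfold hammingDist
        rw [this, Finset.card_union_of_disjoint hd]
      rw [h3]; omega
    · have : (univ.filter (fun i => (if i ∈ A then !(c i) else c i) ≠ c i)) = A := by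
        ext i
        by_cases hi : i ∈ A
        · simp [hi]
        · simp [hi]
      have h3 : hammingDist (fun i => if i ∈ A then !(c i) else c i) c = A.card := by
        unfold hammingDist
        rw [this]
      rw [h3]; omega
    · intro i hi
      have : i ∉ A := fun h => hi (hAT i h).1
      simp [this]

lemma count_eq {n : ℕ} (T : Finset (Fin n)) (c : Fin n → Bool) (j : ℕ) :
    (univ.filter (fun c' : Fin n → Bool => (∀ i, i ∉ T → c' i = c i) ∧ hammingDist c' c = j)).card
      ≤ T.card.choose j := by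
  classical
  rw [← Finset.card_powersetCard]
  apply Finset.card_le_card_of_injOn (fun c' => univ.filter (fun i => c' i ≠ c i))
  · intro c' hc'
    rw [Finset.mem_coe, Finset.mem_filter] at hc'
    rw [Finset.mem_coe, Finset.mem_powersetCard]
    refine ⟨?_, hc'.2.2⟩
    intro i hi
    simp only [Finset.mem_univ, true_and, Finset.mem_filter] at hi
    by_contra hT
    exact hi (hc'.2.1 i hT)
  · intro c₁ _ c₂ _ h
    funext i
    have h1 : (i ∈ univ.filter (fun i => c₁ i ≠ c i)) ↔ (i ∈ univ.filter (fun i => c₂ i ≠ c i)) := by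
      have h' : (univ.filter (fun i => c₁ i ≠ c i)) = (univ.filter (fun i => c₂ i ≠ c i)) := h
      rw [h']
    simp only [Finset.mem_filter, Finset.mem_univ, true_and] at h1
    cases hc1 : c₁ i <;> cases hc2 : c₂ i <;> cases hc : c i <;> simp_all

lemma count_le {n r : ℕ} (T : Finset (Fin n)) (hT : T.card = r + 1) (c : Fin n → Bool) (j : ℕ) :
    (univ.filter (fun c' : Fin n → Bool => (∀ i, i ∉ T → c' i = c i) ∧ hammingDist c' c ≤ j)).card
      ≤ W r j := by
  classical
  have h : (univ.filter (fun c' : Fin n → Bool => (∀ i, i ∉ T → c' i = c i) ∧ hammingDist c' c ≤ j))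
      ⊆ (range (j + 1)).biUnion (fun i => univ.filter
        (fun c' : Fin n → Bool => (∀ i, i ∉ T → c' i = c i) ∧ hammingDist c' c = i)) := by
    intro c' hc'
    simp only [Finset.mem_filter, Finset.mem_univ, true_and] at hc'
    simp only [Finset.mem_biUnion, Finset.mem_range, Finset.mem_filter, Finset.mem_univ, true_and]
    exact ⟨_, by omega, hc'.1, rfl⟩
  calc _ ≤ _ := Finset.card_le_card h
    _ ≤ ∑ i ∈ range (j + 1), _ := Finset.card_biUnion_le
    _ ≤ ∑ i ∈ range (j + 1), (r + 1).choose i := by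
        apply Finset.sum_le_sum
        intro i _
        rw [← hT]
        exact count_eq T c i
    _ = W r j := rfl

/-- left part -/
def lp {n k : ℕ} (x : Fin (n + k) → Bool) : Fin n → Bool := fun i => x (Fin.castAdd k i)
/-- right part -/
def rp {n k : ℕ} (x : Fin (n + k) → Bool) : Fin k → Bool := fun i => x (Fin.natAdd n i)

lemma dist_split {n k : ℕ} (x : Fin (n + k) → Bool) (u : Fin n → Bool) (a : Fin k → Bool) :
    hammingDist x (Fin.append u a) = hammingDist (lp x) u + hammingDist (rp x) a := by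
  classical
  unfold hammingDist
  simp only [Finset.card_filter]
  rw [Fin.sum_univ_add]
  simp only [Fin.append_left, Fin.append_right]
  rfl

/-- the new code -/
def newCode {n k : ℕ} (r : ℕ) (T : Finset (Fin n)) (a : Fin k → Bool)
    (C : Finset (Fin (n + k) → Bool)) : Finset (Fin n → Bool) :=
  (C.filter (fun x => hammingDist (rp x) a ≤ r)).biUnion (fun x => univ.filter
    (fun c' : Fin n → Bool => (∀ i, i ∉ T → c' i = lp x i) ∧
      hammingDist c' (lp x) ≤ hammingDist (rp x) a))

lemma newCode_sep {n k r : ℕ} (T : Finset (Fin n)) (hT : T.card = r + 1) (a : Fin k → Bool)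
    (C : Finset (Fin (n + k) → Bool)) (u v : Fin n → Bool) (x : Fin (n + k) → Bool) (hx : x ∈ C)
    (hu : hammingDist x (Fin.append u a) ≤ r) (hv : ¬ hammingDist x (Fin.append v a) ≤ r) :
    ∃ c' ∈ newCode r T a C, hammingDist c' u ≤ r ∧ ¬ hammingDist c' v ≤ r := by
  rw [dist_split] at hu hv
  obtain ⟨c', h1, h2, h3⟩ := push T hT (lp x) v
  refine ⟨c', ?_, ?_, by omega⟩
  · simp only [newCode, Finset.mem_biUnion, Finset.mem_filter, Finset.mem_univ, true_and]
    exact ⟨x, ⟨hx, by omega⟩, h3, by omega⟩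
  · have := hammingDist_triangle c' (lp x) u
    omega

lemma newCode_isId {n k r : ℕ} (T : Finset (Fin n)) (hT : T.card = r + 1) (a : Fin k → Bool)
    (C : Finset (Fin (n + k) → Bool)) (hC : IsId r (n + k) C) :
    IsId r n (newCode r T a C) := by
  refine ⟨?_, ?_⟩
  · intro v
    obtain ⟨x, hx⟩ := hC.1 (Fin.append v a)
    rw [Finset.mem_filter, dist_split] at hx
    refine ⟨lp x, ?_⟩
    simp only [newCode, Finset.mem_biUnion, Finset.mem_filter, Finset.mem_univ, true_and]
    exact ⟨⟨x, ⟨hx.1, by omega⟩, fun _ _ => rfl, by simp⟩, by omega⟩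
  · intro u v huv heq
    have hne : (Fin.append u a : Fin (n + k) → Bool) ≠ Fin.append v a := by
      intro h
      apply huv
      funext i
      have := congrFun h (Fin.castAdd k i)
      simpa using this
    apply hC.2 _ _ hne
    ext x
    simp only [Finset.mem_filter, and_congr_right_iff]
    intro hx
    constructor
    · intro hu
      by_contra hv
      obtain ⟨c', hc', h1, h2⟩ := newCode_sep T hT a C u v x hx hu hv
      have : c' ∈ (newCode r T a C).filter (fun c => hammingDist c v ≤ r) := by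
        rw [← heq]; exact Finset.mem_filter.2 ⟨hc', h1⟩
      exact h2 (Finset.mem_filter.1 this).2
    · intro hv
      by_contra hu
      obtain ⟨c', hc', h1, h2⟩ := newCode_sep T hT a C v u x hx hv hu
      have : c' ∈ (newCode r T a C).filter (fun c => hammingDist c u ≤ r) := by
        rw [heq]; exact Finset.mem_filter.2 ⟨hc', h1⟩
      exact h2 (Finset.mem_filter.1 this).2

lemma newCode_card {n k r : ℕ} (T : Finset (Fin n)) (hT : T.card = r + 1) (a : Fin k → Bool)
    (C : Finset (Fin (n + k) → Bool)) :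
    (newCode r T a C).card ≤
      ∑ x ∈ C.filter (fun x => hammingDist (rp x) a ≤ r), W r (hammingDist (rp x) a) := by
  unfold newCode
  refine Finset.card_biUnion_le.trans (Finset.sum_le_sum ?_)
  intro x _
  exact count_le T hT _ _

lemma sum_fib (r k : ℕ) (y : Fin k → Bool) :
    ∑ a ∈ univ.filter (fun a : Fin k → Bool => hammingDist y a ≤ r), W r (hammingDist y a)
      ≤ S r k := by
  classical
  rw [← Finset.sum_fiberwise_of_maps_to (t := range (r + 1)) (g := fun a => hammingDist y a)]
  · apply Finset.sum_le_sum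
    intro j hj
    calc _ = ∑ a ∈ (univ.filter (fun a : Fin k → Bool => hammingDist y a ≤ r)).filter
            (fun a => hammingDist y a = j), W r j := by
          apply Finset.sum_congr rfl
          intro a ha
          rw [(Finset.mem_filter.1 ha).2]
      _ = ((univ.filter (fun a : Fin k → Bool => hammingDist y a ≤ r)).filter
            (fun a => hammingDist y a = j)).card * W r j := by simp
      _ ≤ k.choose j * W r j := by
          apply Nat.mul_le_mul_right
          have h := count_eq (univ : Finset (Fin k)) y j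
          rw [Finset.card_univ, Fintype.card_fin] at h
          refine le_trans (Finset.card_le_card ?_) h
          intro a ha
          simp only [Finset.mem_filter, Finset.mem_univ, true_and] at ha ⊢
          exact ⟨fun i hi => absurd trivial hi, by rw [hammingDist_comm]; exact ha.2⟩
  · intro a ha
    have := (Finset.mem_filter.1 ha).2
    exact Finset.mem_range.2 (by omega)

lemma exists_T {n r : ℕ} (h : r + 1 ≤ n) : ∃ T : Finset (Fin n), T.card = r + 1 := by
  obtain ⟨T, _, hT⟩ := Finset.exists_subset_card_eq (s := (univ : Finset (Fin n))) (n := r + 1)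
    (by simpa using h)
  exact ⟨T, hT⟩

lemma univ_isId {n r : ℕ} (h : r + 1 ≤ n) : IsId r n univ := by
  obtain ⟨T, hT⟩ := exists_T h
  refine ⟨fun v => ⟨v, by simp⟩, ?_⟩
  intro u v huv heq
  obtain ⟨c', h1, h2, _⟩ := push T hT u v
  have hpos : 0 < hammingDist u v := hammingDist_pos.2 huv
  have : c' ∈ (univ : Finset (Fin n → Bool)).filter (fun c => hammingDist c v ≤ r) := by
    rw [← heq]; simp; omega
  have := (Finset.mem_filter.1 this).2
  omega

lemma Id_attained {n r : ℕ} (h : r + 1 ≤ n) :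
    ∃ C : Finset (Fin n → Bool), IsId r n C ∧ C.card = Id r n := by
  have hne : {m | ∃ C : Finset (Fin n → Bool), IsId r n C ∧ C.card = m}.Nonempty :=
    ⟨_, univ, univ_isId h, rfl⟩
  exact Nat.sInf_mem hne

lemma Id_le {n r : ℕ} (C : Finset (Fin n → Bool)) (hC : IsId r n C) : Id r n ≤ C.card :=
  Nat.sInf_le ⟨C, hC, rfl⟩

lemma main_ineq {n r : ℕ} (k : ℕ) (h : r + 1 ≤ n) : 2 ^ k * Id r n ≤ S r k * Id r (n + k) := by
  classical
  obtain ⟨C, hC, hcard⟩ := Id_attained (r := r) (n := n + k) (by omega)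
  obtain ⟨T, hT⟩ := exists_T h
  have h1 : ∀ a : Fin k → Bool, Id r n ≤
      ∑ x ∈ C.filter (fun x => hammingDist (rp x) a ≤ r), W r (hammingDist (rp x) a) := fun a =>
    (Id_le _ (newCode_isId T hT a C hC)).trans (newCode_card T hT a C)
  calc 2 ^ k * Id r n = ∑ _a : Fin k → Bool, Id r n := by
        simp [Finset.sum_const, Finset.card_univ]
    _ ≤ ∑ a : Fin k → Bool, ∑ x ∈ C.filter (fun x => hammingDist (rp x) a ≤ r),
          W r (hammingDist (rp x) a) := Finset.sum_le_sum (fun a _ => h1 a)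
    _ = ∑ x ∈ C, ∑ a ∈ univ.filter (fun a : Fin k → Bool => hammingDist (rp x) a ≤ r),
          W r (hammingDist (rp x) a) := by
        simp only [Finset.sum_filter]
        exact Finset.sum_comm
    _ ≤ ∑ _x ∈ C, S r k := Finset.sum_le_sum (fun x _ => sum_fib r k (rp x))
    _ = S r k * Id r (n + k) := by
        rw [Finset.sum_const, hcard, smul_eq_mul, mul_comm]

lemma S_pos (r k : ℕ) : 0 < S r k := by
  unfold S
  have : 0 < k.choose 0 * W r 0 := by simp [W]
  exact lt_of_lt_of_le this
    (Finset.single_le_sum (f := fun j => k.choose j * W r j) (fun _ _ => Nat.zero_le _) (by simp))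

lemma of_S_le {n r k B : ℕ} (h : r + 1 ≤ n) (hS : B * S r k ≤ 2 ^ k) :
    B * Id r n ≤ Id r (n + k) := by
  have h1 := main_ineq k h
  have h2 : S r k * (B * Id r n) ≤ S r k * Id r (n + k) := by
    calc S r k * (B * Id r n) = (B * S r k) * Id r n := by ring
      _ ≤ 2 ^ k * Id r n := Nat.mul_le_mul_right _ hS
      _ ≤ _ := h1
  exact Nat.le_of_mul_le_mul_left h2 (S_pos r k)

lemma W_le (r j : ℕ) (hj : j ≤ r) : W r j ≤ 2 ^ (r + 1) := by
  unfold W
  rw [← Nat.sum_range_choose]
  apply Finset.sum_le_sum_of_subset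
  intro i hi
  simp only [Finset.mem_range] at hi ⊢
  omega

lemma S_le (r k : ℕ) (hk : 1 ≤ k) : S r k ≤ (r + 1) * 2 ^ (r + 1) * k ^ r := by
  unfold S
  calc ∑ j ∈ range (r + 1), k.choose j * W r j
      ≤ ∑ _j ∈ range (r + 1), k ^ r * 2 ^ (r + 1) := by
        apply Finset.sum_le_sum
        intro j hj
        have hj' : j ≤ r := by simpa [Nat.lt_succ_iff] using Finset.mem_range.1 hj
        apply Nat.mul_le_mul
        · exact (Nat.choose_le_pow k j).trans (Nat.pow_le_pow_right hk hj')
        · exact W_le r j hj'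
    _ = (r + 1) * 2 ^ (r + 1) * k ^ r := by
        rw [Finset.sum_const, Finset.card_range, smul_eq_mul]; ring


lemma app_eq {n k : ℕ} (w : Fin (n + k) → Bool) : Fin.append (lp w) (rp w) = w := by
  funext i
  refine Fin.addCases (fun i => ?_) (fun i => ?_) i
  · rw [Fin.append_left]; rfl
  · rw [Fin.append_right]; rfl

lemma dist_append {n k : ℕ} (c u : Fin n → Bool) (z a : Fin k → Bool) :
    hammingDist (Fin.append c z) (Fin.append u a) = hammingDist c u + hammingDist z a := by
  rw [dist_split]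
  have h1 : lp (Fin.append c z) = c := by
    funext i; simp [lp]
  have h2 : rp (Fin.append c z) = z := by
    funext i; simp [rp]
  rw [h1, h2]

/-- the product of a code with a whole cube -/
def prodCode {n : ℕ} (k : ℕ) (C : Finset (Fin n → Bool)) : Finset (Fin (n + k) → Bool) :=
  (C ×ˢ (univ : Finset (Fin k → Bool))).image (fun p => Fin.append p.1 p.2)

lemma mem_prodCode {n k : ℕ} {C : Finset (Fin n → Bool)} {c : Fin n → Bool} (hc : c ∈ C)
    (z : Fin k → Bool) : Fin.append c z ∈ prodCode k C := by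
  unfold prodCode
  rw [Finset.mem_image]
  exact ⟨(c, z), by simp [hc], rfl⟩

lemma prodCode_card {n : ℕ} (k : ℕ) (C : Finset (Fin n → Bool)) :
    (prodCode k C).card ≤ 2 ^ k * C.card := by
  refine Finset.card_image_le.trans ?_
  rw [Finset.card_product]
  simp [mul_comm]

lemma prodCode_isId {n r k : ℕ} (hk : r + 1 ≤ k) (C : Finset (Fin n → Bool)) (hC : IsId r n C) :
    IsId r (n + k) (prodCode k C) := by
  refine ⟨?_, ?_⟩
  · intro w
    obtain ⟨c, hc⟩ := hC.1 (lp w)
    rw [Finset.mem_filter] at hc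
    refine ⟨Fin.append c (rp w), Finset.mem_filter.2 ⟨mem_prodCode hc.1 _, ?_⟩⟩
    rw [← app_eq w, dist_append]
    have h1 : lp (Fin.append (lp w) (rp w)) = lp w := by rw [app_eq]
    have h2 : rp (Fin.append (lp w) (rp w)) = rp w := by rw [app_eq]
    rw [h2]
    simpa using hc.2
  · intro w₁ w₂ hw heq
    have H : ∀ c ∈ C, ∀ z : Fin k → Bool,
        (hammingDist c (lp w₁) + hammingDist z (rp w₁) ≤ r ↔
          hammingDist c (lp w₂) + hammingDist z (rp w₂) ≤ r) := by
      intro c hc z
      have h : Fin.append c z ∈ (prodCode k C).filter (fun x => hammingDist x w₁ ≤ r) ↔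
          Fin.append c z ∈ (prodCode k C).filter (fun x => hammingDist x w₂ ≤ r) := by
        rw [heq]
      rw [Finset.mem_filter, Finset.mem_filter] at h
      have e1 : hammingDist (Fin.append c z) w₁
          = hammingDist c (lp w₁) + hammingDist z (rp w₁) := by
        conv_lhs => rw [← app_eq w₁]
        exact dist_append _ _ _ _
      have e2 : hammingDist (Fin.append c z) w₂
          = hammingDist c (lp w₂) + hammingDist z (rp w₂) := by
        conv_lhs => rw [← app_eq w₂]
        exact dist_append _ _ _ _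
      rw [e1, e2] at h
      have hm := mem_prodCode hc z
      exact ⟨fun h' => (h.1 ⟨hm, h'⟩).2, fun h' => (h.2 ⟨hm, h'⟩).2⟩
    have huv : lp w₁ = lp w₂ := by
      by_contra hne
      apply hC.2 _ _ hne
      ext c
      simp only [Finset.mem_filter, and_congr_right_iff]
      intro hc
      have ha := H c hc (rp w₁)
      have hb := H c hc (rp w₂)
      rw [hammingDist_self] at ha hb
      constructor
      · intro h; have := ha.1 (by omega); omega
      · intro h; have := hb.2 (by omega); omega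
    have hab : rp w₁ ≠ rp w₂ := by
      intro h
      apply hw
      rw [← app_eq w₁, ← app_eq w₂, huv, h]
    obtain ⟨c, hc⟩ := hC.1 (lp w₁)
    rw [Finset.mem_filter] at hc
    obtain ⟨T, hT⟩ := exists_T (n := k) (r := r - hammingDist c (lp w₁)) (by omega)
    obtain ⟨z, h1, h2, _⟩ := push T hT (rp w₁) (rp w₂)
    have hpos : 0 < hammingDist (rp w₁) (rp w₂) := hammingDist_pos.2 hab
    have := (H c hc.1 z).1 (by omega)
    rw [← huv] at this
    omega

lemma growth {n r k : ℕ} (hn : r + 1 ≤ n) (hk : r + 1 ≤ k) : Id r (n + k) ≤ 2 ^ k * Id r n := by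
  obtain ⟨C, hC, hcard⟩ := Id_attained hn
  rw [← hcard]
  exact (Id_le _ (prodCode_isId hk C hC)).trans (prodCode_card k C)

lemma Id_pos {n r : ℕ} (hn : r + 1 ≤ n) : 0 < Id r n := by
  obtain ⟨C, hC, hcard⟩ := Id_attained hn
  rw [← hcard, Finset.card_pos]
  obtain ⟨x, hx⟩ := hC.1 (fun _ => false)
  exact ⟨x, (Finset.mem_filter.1 hx).1⟩

/-- number of the indices `x, x + (r+2), …, x + (t - 1)(r+2)` at which the ratio is `≤ θ` -/
noncomputable def cnt (r x t : ℕ) (θ : ℝ) : ℕ := by
  classical
  exact ((range t).filter (fun s =>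
    (Id r (x + (r + 2) * s + 1) : ℝ) ≤ θ * (Id r (x + (r + 2) * s) : ℝ))).card

open Classical in
lemma cnt_succ (r x t : ℕ) (θ : ℝ) : cnt r x (t + 1) θ = cnt r x t θ +
    (if (Id r (x + (r + 2) * t + 1) : ℝ) ≤ θ * (Id r (x + (r + 2) * t) : ℝ) then 1 else 0) := by
  unfold cnt
  rw [Finset.range_add_one, Finset.filter_insert]
  split_ifs with h
  · rw [Finset.card_insert_of_notMem (by simp)]
  · simp

lemma chain {r x : ℕ} (hx : r + 1 ≤ x) (t : ℕ) (θ : ℝ) (h0 : 0 < θ) :
    (Id r (x + (r + 2) * t) : ℝ) * (2 / θ) ^ (cnt r x t θ) ≤ 2 ^ ((r + 2) * t) * (Id r x : ℝ) := by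
  classical
  induction t with
  | zero => simp [cnt]
  | succ t ih =>
    rw [cnt_succ]
    have hpos : (0 : ℝ) < 2 / θ := by positivity
    have hstep : (Id r (x + (r + 2) * (t + 1)) : ℝ) *
        (2 / θ) ^ (if (Id r (x + (r + 2) * t + 1) : ℝ) ≤ θ * (Id r (x + (r + 2) * t) : ℝ)
          then 1 else 0)
        ≤ 2 ^ (r + 2) * (Id r (x + (r + 2) * t) : ℝ) := by
      split_ifs with h
      · have h1 : x + (r + 2) * (t + 1) = (x + (r + 2) * t + 1) + (r + 1) := by ring
        have h2 : Id r (x + (r + 2) * (t + 1)) ≤ 2 ^ (r + 1) * Id r (x + (r + 2) * t + 1) := by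
          rw [h1]
          exact growth (by omega) le_rfl
        have h2' : (Id r (x + (r + 2) * (t + 1)) : ℝ)
            ≤ 2 ^ (r + 1) * (Id r (x + (r + 2) * t + 1) : ℝ) := by exact_mod_cast h2
        calc (Id r (x + (r + 2) * (t + 1)) : ℝ) * (2 / θ) ^ 1
            ≤ (2 ^ (r + 1) * (Id r (x + (r + 2) * t + 1) : ℝ)) * (2 / θ) ^ 1 :=
              mul_le_mul_of_nonneg_right h2' (by positivity)
          _ ≤ (2 ^ (r + 1) * (θ * (Id r (x + (r + 2) * t) : ℝ))) * (2 / θ) ^ 1 := by
              apply mul_le_mul_of_nonneg_right _ (by positivity)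
              exact mul_le_mul_of_nonneg_left h (by positivity)
          _ = 2 ^ (r + 2) * (Id r (x + (r + 2) * t) : ℝ) := by
              field_simp
              ring
      · have h1 : x + (r + 2) * (t + 1) = (x + (r + 2) * t) + (r + 2) := by ring
        have h2 : Id r (x + (r + 2) * (t + 1)) ≤ 2 ^ (r + 2) * Id r (x + (r + 2) * t) := by
          rw [h1]
          exact growth (by omega) (by omega)
        rw [pow_zero, mul_one]
        exact_mod_cast h2
    calc (Id r (x + (r + 2) * (t + 1)) : ℝ) * (2 / θ) ^ (cnt r x t θ +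
          (if (Id r (x + (r + 2) * t + 1) : ℝ) ≤ θ * (Id r (x + (r + 2) * t) : ℝ) then 1 else 0))
        = ((Id r (x + (r + 2) * (t + 1)) : ℝ) * (2 / θ) ^
          (if (Id r (x + (r + 2) * t + 1) : ℝ) ≤ θ * (Id r (x + (r + 2) * t) : ℝ)
            then 1 else 0)) * (2 / θ) ^ (cnt r x t θ) := by rw [pow_add]; ring
      _ ≤ (2 ^ (r + 2) * (Id r (x + (r + 2) * t) : ℝ)) * (2 / θ) ^ (cnt r x t θ) :=
          mul_le_mul_of_nonneg_right hstep (by positivity)
      _ = 2 ^ (r + 2) * ((Id r (x + (r + 2) * t) : ℝ) * (2 / θ) ^ (cnt r x t θ)) := by ring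
      _ ≤ 2 ^ (r + 2) * (2 ^ ((r + 2) * t) * (Id r x : ℝ)) :=
          mul_le_mul_of_nonneg_left ih (by positivity)
      _ = 2 ^ ((r + 2) * (t + 1)) * (Id r x : ℝ) := by rw [mul_add, pow_add]; ring

lemma cnt_bound {r x : ℕ} (hx : r + 1 ≤ x) (t : ℕ) (θ : ℝ) (h0 : 0 < θ) :
    (2 / θ) ^ (cnt r x t θ) ≤ (S r ((r + 2) * t) : ℝ) := by
  have h1 := chain hx t θ h0
  have h2 := main_ineq (r := r) (n := x) ((r + 2) * t) hx
  have h2' : (2 : ℝ) ^ ((r + 2) * t) * (Id r x : ℝ)
      ≤ (S r ((r + 2) * t) : ℝ) * (Id r (x + (r + 2) * t) : ℝ) := by exact_mod_cast h2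
  have hp : (0 : ℝ) < (Id r (x + (r + 2) * t) : ℝ) := by
    exact_mod_cast Id_pos (r := r) (n := x + (r + 2) * t) (by omega)
  have h3 : (Id r (x + (r + 2) * t) : ℝ) * (2 / θ) ^ (cnt r x t θ)
      ≤ (Id r (x + (r + 2) * t) : ℝ) * (S r ((r + 2) * t) : ℝ) := by
    calc _ ≤ _ := h1
      _ ≤ _ := h2'
      _ = _ := by ring
  exact le_of_mul_le_mul_left h3 hp

lemma cnt_log {r x N M : ℕ} (hx : r + 1 ≤ x) (hN : 1 ≤ N) (θ : ℝ) (h0 : 0 < θ) (h2 : θ < 2)
    (hM : 2 ≤ (2 / θ) ^ M) :
    cnt r x N θ ≤ M * (r ^ 2 + 5 * r + 2) * (Nat.log 2 N + 1) := by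
  have h1 := cnt_bound hx N θ h0
  have hS := S_le r ((r + 2) * N) (by nlinarith)
  set l := Nat.log 2 N with hl
  have hN2 : N ≤ 2 ^ (l + 1) := (Nat.lt_pow_succ_log_self (by norm_num) N).le
  have h3 : (r + 1) * 2 ^ (r + 1) * ((r + 2) * N) ^ r
      ≤ 2 ^ (r + 1) * 2 ^ (r + 1) * (2 ^ (r + 2) * 2 ^ (l + 1)) ^ r := by
    apply Nat.mul_le_mul
    · exact Nat.mul_le_mul_right _ (Nat.lt_two_pow_self).le
    · apply Nat.pow_le_pow_left
      exact Nat.mul_le_mul (Nat.lt_two_pow_self).le hN2
  have h4 : 2 ^ (r + 1) * 2 ^ (r + 1) * (2 ^ (r + 2) * 2 ^ (l + 1)) ^ r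
      = 2 ^ ((r + 1) + (r + 1) + ((r + 2) + (l + 1)) * r) := by
    rw [← pow_add, ← pow_add, ← pow_mul, ← pow_add]
  have h5 : S r ((r + 2) * N) ≤ 2 ^ ((r + 1) + (r + 1) + ((r + 2) + (l + 1)) * r) := by
    rw [← h4]; exact hS.trans h3
  have h6 : (r + 1) + (r + 1) + ((r + 2) + (l + 1)) * r ≤ (r ^ 2 + 5 * r + 2) * (l + 1) := by
    nlinarith [Nat.zero_le (r * r * l), Nat.zero_le (r * l), Nat.zero_le l]
  have h7 : (S r ((r + 2) * N) : ℝ) ≤ 2 ^ ((r ^ 2 + 5 * r + 2) * (l + 1)) := by
    have : S r ((r + 2) * N) ≤ 2 ^ ((r ^ 2 + 5 * r + 2) * (l + 1)) :=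
      h5.trans (Nat.pow_le_pow_right (by norm_num) h6)
    exact_mod_cast this
  have hl1 : 1 < 2 / θ := by rw [lt_div_iff₀ h0]; linarith
  have h8 : (2 : ℝ) ^ ((r ^ 2 + 5 * r + 2) * (l + 1))
      ≤ (2 / θ) ^ (M * ((r ^ 2 + 5 * r + 2) * (l + 1))) := by
    rw [pow_mul (2 / θ)]
    exact pow_le_pow_left₀ (by norm_num) hM _
  have h9 : (2 / θ) ^ (cnt r x N θ) ≤ (2 / θ) ^ (M * ((r ^ 2 + 5 * r + 2) * (l + 1))) :=
    h1.trans (h7.trans h8)
  have h10 := (pow_le_pow_iff_right₀ hl1).1 h9
  rw [mul_assoc]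
  exact h10

open Classical in
/-- For every `θ < 2` the inequality `Id_r(F^(n+1)) > θ Id_r(F^n)` has at most
`A (log₂ N + 1)` exceptions `n < N`. -/
theorem result (r : ℕ) :
    (∀ n, r + 1 ≤ n → ∃ C : Finset (Fin n → Bool), IsId r n C ∧ C.card = Id r n) ∧
    ∀ θ : ℝ, θ < 2 → ∃ A : ℕ, ∀ N, 1 ≤ N →
      ((range N).filter (fun n => r + 1 ≤ n ∧
        ¬ θ * (Id r n : ℝ) < (Id r (n + 1) : ℝ))).card ≤ A * (Nat.log 2 N + 1) := by
  refine ⟨fun n h => Id_attained h, fun θ' hθ' => ?_⟩
  -- replace θ' by a positive number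
  set θ : ℝ := max θ' 1 with hθ
  have h0 : 0 < θ := lt_of_lt_of_le one_pos (le_max_right _ _)
  have h2 : θ < 2 := max_lt hθ' (by norm_num)
  have hl1 : 1 < 2 / θ := by rw [lt_div_iff₀ h0]; linarith
  obtain ⟨M, hM⟩ := pow_unbounded_of_one_lt (2 : ℝ) hl1
  refine ⟨(r + 2) * (M * (r ^ 2 + 5 * r + 2)), fun N hN => ?_⟩
  have hsub : (range N).filter (fun n => r + 1 ≤ n ∧ ¬ θ' * (Id r n : ℝ) < (Id r (n + 1) : ℝ)) ⊆
      (range (r + 2)).biUnion (fun ρ => ((range N).filter (fun s =>
        (Id r (r + 1 + ρ + (r + 2) * s + 1) : ℝ)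
          ≤ θ * (Id r (r + 1 + ρ + (r + 2) * s) : ℝ))).image
          (fun s => r + 1 + ρ + (r + 2) * s)) := by
    intro n hn
    simp only [Finset.mem_filter, Finset.mem_range, not_lt] at hn
    obtain ⟨hnN, hn1, hn2⟩ := hn
    have hdiv := Nat.mod_add_div (n - (r + 1)) (r + 2)
    have he : r + 1 + (n - (r + 1)) % (r + 2) + (r + 2) * ((n - (r + 1)) / (r + 2)) = n := by
      omega
    simp only [Finset.mem_biUnion, Finset.mem_range, Finset.mem_image, Finset.mem_filter]
    refine ⟨(n - (r + 1)) % (r + 2), Nat.mod_lt _ (by omega), (n - (r + 1)) / (r + 2),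
      ⟨?_, ?_⟩, he⟩
    · exact lt_of_le_of_lt (Nat.div_le_self _ _) (by omega)
    · rw [he]
      exact hn2.trans (mul_le_mul_of_nonneg_right (le_max_left _ _) (Nat.cast_nonneg _))
  refine (Finset.card_le_card hsub).trans (Finset.card_biUnion_le.trans ?_)
  calc _ ≤ ∑ _ρ ∈ range (r + 2), M * (r ^ 2 + 5 * r + 2) * (Nat.log 2 N + 1) := by
        apply Finset.sum_le_sum
        intro ρ _
        refine Finset.card_image_le.trans ?_
        exact cnt_log (x := r + 1 + ρ) (by omega) hN θ h0 h2 hM.le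
    _ = _ := by
        rw [Finset.sum_const, Finset.card_range, smul_eq_mul]; ring

end Pool.Agent.Results.MP_a77fb1_co.NearDoubling
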